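import Pool.Agent.P8H23.CC.Petersen

/-!
# Faithful circuit covers for weights in `k ℕ`: all odd `k`

A graph `G` has the property `P_k` if `(G, w)` has a faithful circuit cover for every admissible eulerian weight
`w` with values in `k ℕ`. The question is which graphs have the property `P_k`.

Theorem. Let `k` be odd. A graph which contains a subdivision of the Petersen graph does not have the property
`P_k`; there is even an admissible eulerian weight with values in `{0, k, 2 k}` without a faithful circuit cover.
And `P_1` implies `P_k`.

By the theorem of Alspach, Goddyn and Zhang (the graphs without a subdivision of the Petersen graph have the property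
`P_1`) this answers the question for all odd `k`: `P_k` is equivalent to `P_1` and to the absence of subdivisions of
the Petersen graph. So for every graph the set of the `k` with the property `P_k` consists of all positive integers or
only of even numbers.

The weight is `k` on the two pentagons of the Petersen graph and `2 k` on the matching between them, `0` outside of the
subdivision. A circuit of a faithful cover would alternate between the pentagons and the matching at all branch vertices,
so it would contain exactly `0` or `4` edges of the matching, and `4` would divide `10 k`.
-/

set_option autoImplicit false

namespace Pool.Agent.Results.MP_3c540c_co.OddMultiples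

open Pool.Agent.Helper347.Sab Pool.Agent.P8H23.CC

/-- **Weights in `k ℕ`, `k` odd.** -/
theorem result {V E : Type} [Fintype V] [DecidableEq V] [Fintype E] [DecidableEq E] (G : MGraph V E)
    (k : ℕ) :
    (HasP 1 G → HasP k G) ∧
    (Odd k → Nonempty (PetersenSub G) → ¬ HasP k G ∧
      ∃ w : E → ℕ, (∀ e, w e = 0 ∨ w e = k ∨ w e = 2 * k) ∧ Admissible G w ∧ Eulerian G w ∧
        ¬ HasFaithfulCover G w) := by
  refine ⟨fun h w _ ha he => h w (fun e => one_dvd _) ha he, ?_⟩
  rintro hk ⟨P⟩
  exact ⟨fun h => no_cover P k hk (h (wt P k) (wt_dvd P k) (adm P k) (eul P k)),
    wt P k, wt_val P k, adm P k, eul P k, no_cover P k hk⟩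

end Pool.Agent.Results.MP_3c540c_co.OddMultiples
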